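import Pool.Agent.H41.WR.Chg
import Pool.Agent.H43.WR.Def

/-!
# [H41 WR Wd] THEOREM WR (MP_e49dc9_ag): the determinant, in terms of `wd` (H89/RS/Def) and of `JetU`

* `op_wd`: `op d a b f = wd d a b f`.  `wn_wd`: `Wn d i φ = det (wd d p.1 p.2 (φ l))`.
* `wn_mem`: `Wn d i φ` is in every subalgebra which is preserved by `d 0`, `d 1` and contains the `φ l`.
* `rs_det`: the residue of a determinant.  `wn_rs`, `wn_un`: the residue of `Wn d i φ`; it is a unit if the determinant of the residues is not `0`.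
* `brk_cm`: commuting derivations.
* `pr J u b c`: the pair `J u . c / J u b c`, `J u b . / J u b c` of derivations.  `pr_act`: it is `act A d` with `det A = J u (t 0) (t 1) / J u b c`
  for a `JetU` `d`, `t`.  `wn_pr`: `Wn d i φ * J u (t 0) (t 1) ^ w = Wn (pr J u b c) i φ * J u b c ^ w`.
-/

set_option autoImplicit false

namespace Pool.Agent.H41.WR

open Pool.Agent.H16.WR (Ix)
open Pool.Agent.H54.RV Pool.Agent.H83.TU Pool.Agent.H83.TK Pool.Agent.H89.RS Pool.Agent.H43.WR

variable {k K : Type} [Field k] [Field K] [Algebra k K] {d : Fin 2 → Derivation k K K} {i : ℕ}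

theorem op_wd (d : Fin 2 → Derivation k K K) (a b : ℕ) (f : K) : op d a b f = wd d a b f := by
  have key : ∀ (j : Fin 2) (n : ℕ) (f : K), ((d j : K →ₗ[k] K) ^ n) f = (⇑(d j))^[n] f := by
    intro j n f
    rw [Module.End.pow_apply]
    rfl
  show ((d 0 : K →ₗ[k] K) ^ a) (((d 1 : K →ₗ[k] K) ^ b) f) = _
  rw [key, key]
  rfl

theorem wn_wd (d : Fin 2 → Derivation k K K) (i : ℕ) (φ : Ix i → K) :
    Wn d i φ = (Matrix.of fun p l : Ix i => wd d p.1.1 p.1.2 (φ l)).det := by
  unfold Wn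
  congr 1
  ext p l
  rw [Matrix.of_apply, Matrix.of_apply, op_wd]

theorem wd_mem' {O : Subalgebra k K} (hst : ∀ j, ∀ f ∈ O, d j f ∈ O) (a b : ℕ) {f : K} (hf : f ∈ O) :
    wd d a b f ∈ O := by
  have h : ∀ (j : Fin 2) (n : ℕ) (f : K), f ∈ O → (⇑(d j))^[n] f ∈ O := by
    intro j n
    induction n with
    | zero => intro f hf; exact hf
    | succ n ih =>
      intro f hf
      rw [Function.iterate_succ_apply]
      exact ih _ (hst j f hf)
  exact h 0 a _ (h 1 b _ hf)

theorem det_mem {m : Type} [Fintype m] [DecidableEq m] {O : Subalgebra k K} {M : Matrix m m K}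
    (h : ∀ p q, M p q ∈ O) : M.det ∈ O := by
  rw [Matrix.det_apply]
  refine sum_mem fun σ _ => ?_
  have h1 : ∏ q, M (σ q) q ∈ O := prod_mem fun q _ => h _ _
  rcases Int.units_eq_one_or (Equiv.Perm.sign σ) with h2 | h2
  · rw [h2, one_smul]
    exact h1
  · rw [h2, Units.neg_smul, one_smul]
    exact neg_mem h1

theorem wn_mem {O : Subalgebra k K} (hst : ∀ j, ∀ f ∈ O, d j f ∈ O) {φ : Ix i → K} (hφ : ∀ l, φ l ∈ O) :
    Wn d i φ ∈ O := by
  rw [wn_wd]
  exact det_mem fun p q => wd_mem' hst _ _ (hφ q)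

variable {X : Mod k K} {y : X.P}

theorem rs_sum {ι : Type} (s : Finset ι) {f : ι → K} (h : ∀ a ∈ s, f a ∈ X.O y) :
    X.rs y (∑ a ∈ s, f a) = ∑ a ∈ s, X.rs y (f a) := by
  classical
  induction s using Finset.induction_on with
  | empty => rw [Finset.sum_empty, Finset.sum_empty, rs_zero]
  | insert a s ha ih =>
    rw [Finset.sum_insert ha, Finset.sum_insert ha, rs_add y (h a (Finset.mem_insert_self a s))
      (sum_mem fun b hb => h b (Finset.mem_insert_of_mem hb)), ih fun b hb => h b (Finset.mem_insert_of_mem hb)]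

theorem rs_prod {ι : Type} (s : Finset ι) {f : ι → K} (h : ∀ a ∈ s, f a ∈ X.O y) :
    X.rs y (∏ a ∈ s, f a) = ∏ a ∈ s, X.rs y (f a) := by
  classical
  induction s using Finset.induction_on with
  | empty => rw [Finset.prod_empty, Finset.prod_empty, rs_one]
  | insert a s ha ih =>
    rw [Finset.prod_insert ha, Finset.prod_insert ha, rs_mul y (h a (Finset.mem_insert_self a s))
      (prod_mem fun b hb => h b (Finset.mem_insert_of_mem hb)), ih fun b hb => h b (Finset.mem_insert_of_mem hb)]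

theorem rs_neg' {f : K} (hf : f ∈ X.O y) : X.rs y (-f) = - X.rs y f := by
  have h1 := rs_add y hf (neg_mem hf)
  rw [add_neg_cancel, rs_zero] at h1
  exact (neg_eq_of_add_eq_zero_right h1.symm).symm

theorem rs_det {m : Type} [Fintype m] [DecidableEq m] {M : Matrix m m K} (h : ∀ p q, M p q ∈ X.O y) :
    X.rs y M.det = (Matrix.of fun p q => X.rs y (M p q)).det := by
  have h2 : ∀ (u : ℤˣ) (f : K), f ∈ X.O y → X.rs y (u • f) = u • X.rs y f := by
    intro u f hf
    rcases Int.units_eq_one_or u with h3 | h3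
    · rw [h3, one_smul, one_smul]
    · rw [h3, Units.neg_smul, Units.neg_smul, one_smul, one_smul, rs_neg' hf]
  rw [Matrix.det_apply, Matrix.det_apply, rs_sum]
  · refine Finset.sum_congr rfl fun σ _ => ?_
    rw [h2 _ _ (prod_mem fun q _ => h _ _), rs_prod _ fun q _ => h _ _]
    rfl
  · intro σ _
    have h1 : ∏ q, M (σ q) q ∈ X.O y := prod_mem fun q _ => h _ _
    rcases Int.units_eq_one_or (Equiv.Perm.sign σ) with h3 | h3
    · rw [h3, one_smul]
      exact h1
    · rw [h3, Units.neg_smul, one_smul]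
      exact neg_mem h1

/-- the residue of the determinant -/
theorem wn_rs (hst : ∀ j, ∀ f ∈ X.O y, d j f ∈ X.O y) {φ : Ix i → K} (hφ : ∀ l, φ l ∈ X.O y) :
    X.rs y (Wn d i φ) = (Matrix.of fun p l : Ix i => X.rs y (wd d p.1.1 p.1.2 (φ l))).det := by
  rw [wn_wd, rs_det (M := Matrix.of fun p l : Ix i => wd d p.1.1 p.1.2 (φ l)) fun p q => wd_mem' hst _ _ (hφ q)]
  rfl

theorem wn_un (hst : ∀ j, ∀ f ∈ X.O y, d j f ∈ X.O y) {φ : Ix i → K} (hφ : ∀ l, φ l ∈ X.O y)
    (h : (Matrix.of fun p l : Ix i => X.rs y (wd d p.1.1 p.1.2 (φ l))).det ≠ 0) : Un (X.O y) (Wn d i φ) := by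
  rw [← rs_ne y (wn_mem hst hφ), wn_rs hst hφ]
  exact h

theorem brk_cm (h : ∀ f, d 0 (d 1 f) = d 1 (d 0 f)) : Brk d :=
  ⟨0, 0, fun f => by rw [h, sub_self, zero_mul, zero_mul, add_zero]⟩

/-! ## the pairs of derivations `J u . c`, `J u b .` -/

variable {J : K → K → K → K} {κ : Cart X} {u b c : K}

/-- the derivation `J . b c` -/
def jder (hJ : Jac X J κ) (b c : K) : Derivation k K K where
  toFun f := J f b c
  map_add' x y := hJ.add x y b c
  map_smul' a f := by
    rw [Algebra.smul_def, hJ.leib, hJ.alg, mul_zero, add_zero, RingHom.id_apply, Algebra.smul_def]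
  map_one_eq_zero' := by
    have h1 := hJ.alg 1 b c
    rw [map_one] at h1
    exact h1
  leibniz' x y := by
    show J (x * y) b c = x * J y b c + y * J x b c
    exact hJ.leib x y b c

theorem jder_apply (hJ : Jac X J κ) (b c f : K) : jder hJ b c f = J f b c := rfl

/-- the pair `J u . c / J u b c`, `J u b . / J u b c` -/
noncomputable def pr (hJ : Jac X J κ) (u b c : K) : Fin 2 → Derivation k K K :=
  ![(J u b c)⁻¹ • jder hJ c u, (J u b c)⁻¹ • jder hJ u b]

theorem pr_zero (hJ : Jac X J κ) (f : K) : pr hJ u b c 0 f = J u f c / J u b c := by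
  show (J u b c)⁻¹ * J f c u = _
  rw [hJ.s12 u f c, hJ.s23 f u c, neg_neg, div_eq_inv_mul]

theorem pr_one (hJ : Jac X J κ) (f : K) : pr hJ u b c 1 f = J u b f / J u b c := by
  show (J u b c)⁻¹ * J f u b = _
  rw [hJ.s23 u b f, hJ.s12 u f b, neg_neg, div_eq_inv_mul]

theorem j_self [CharZero k] (hJ : Jac X J κ) (a c : K) : J a a c = 0 := by
  have : CharZero K := charZero_of_injective_algebraMap (algebraMap k K).injective
  exact self_eq_neg.1 (hJ.s12 a a c)

theorem pr_u [CharZero k] (hJ : Jac X J κ) (j : Fin 2) : pr hJ u b c j u = 0 := by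
  have h2 : J u b u = 0 := by rw [hJ.s23, j_self hJ, neg_zero]
  fin_cases j
  · show pr hJ u b c 0 u = 0
    rw [pr_zero, j_self hJ, zero_div]
  · show pr hJ u b c 1 u = 0
    rw [pr_one, h2, zero_div]

variable {t : Fin 2 → K}

theorem pr_act (hJ : Jac X J κ) (hd : JetU X y J κ u d t) (hb : J u b c ≠ 0) :
    ∃ A : Matrix (Fin 2) (Fin 2) K, A.det = J u (t 0) (t 1) / J u b c ∧ pr hJ u b c = act A d := by
  obtain ⟨q, hq⟩ : ∃ q, q = J u (t 0) (t 1) / J u b c := ⟨_, rfl⟩
  have h0 : J u b c = J u (t 0) (t 1) * (d 0 b * d 1 c - d 1 b * d 0 c) := hd.jac b c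
  have h1 : J u (t 0) (t 1) = q * J u b c := by rw [hq, div_mul_cancel₀ _ hb]
  have h2 : q * (d 0 b * d 1 c - d 1 b * d 0 c) = 1 := by
    have h3 : J u b c * (q * (d 0 b * d 1 c - d 1 b * d 0 c)) = J u b c * 1 := by
      rw [mul_one]
      conv_rhs => rw [h0, h1]
      ring
    exact mul_left_cancel₀ hb h3
  refine ⟨!![q * d 1 c, - (q * d 0 c); - (q * d 1 b), q * d 0 b], ?_, ?_⟩
  · rw [Matrix.det_fin_two_of, ← hq]
    linear_combination q * h2
  · funext j
    refine Derivation.ext fun f => ?_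
    fin_cases j
    · show pr hJ u b c 0 f = q * d 1 c * d 0 f + - (q * d 0 c) * d 1 f
      rw [pr_zero, hd.jac f c, h1, mul_comm q, mul_assoc, mul_div_assoc, mul_comm (J u b c), div_mul_cancel₀ _ hb]
      ring
    · show pr hJ u b c 1 f = - (q * d 1 b) * d 0 f + q * d 0 b * d 1 f
      rw [pr_one, hd.jac b f, h1, mul_comm q, mul_assoc, mul_div_assoc, mul_comm (J u b c), div_mul_cancel₀ _ hb]
      ring

/-- **independence of the pair** -/
theorem wn_pr (hJ : Jac X J κ) (hd : JetU X y J κ u d t) (hb : J u b c ≠ 0) (φ : Ix i → K) :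
    Wn d i φ * J u (t 0) (t 1) ^ wi i = Wn (pr hJ u b c) i φ * J u b c ^ wi i := by
  obtain ⟨A, h1, h2⟩ := pr_act hJ hd hb
  have h3 : A.det ≠ 0 := by
    intro h4
    rw [h4] at h1
    have h5 : J u (t 0) (t 1) = 0 := by
      rcases (div_eq_zero_iff.1 h1.symm) with h6 | h6
      · exact h6
      · exact absurd h6 hb
    exact hb (by rw [hd.jac b c, h5, zero_mul])
  rw [h2, wn_act (brk_cm hd.jet.cm) h3, h1, div_pow]
  field_simp

end Pool.Agent.H41.WR
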