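import Pool.Agent.H41.WR.Crm
import Pool.Agent.H20.TP.Xst

/-!
# [H41 WR Loc] THEOREM WR (MP_e49dc9_ag): the determinant is a section

* `hart`: an element of `K` which is in the local rings of the surfaces through `x` is in the local ring at `x`.
* `loc`: at a prime divisor: `Wn d i φ * J u (t 0) (t 1) ^ w * F ^ (2 w) / κ ^ w` is in the local ring if the `φ l` are.
* `glo`: the `φ l` are sections of `D + m l F`: `Wn d i φ * J u (t 0) (t 1) ^ w` is a section of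
  `M D + (∑ m l) F + 2 w F - w κ`, `M = card (Ix i)`, `w = wi i`.
-/

set_option autoImplicit false

namespace Pool.Agent.H41.WR

open Pool.Agent.H16.WR (Ix)
open Pool.Agent.H54.RV Pool.Agent.H83.TU Pool.Agent.H83.TK Pool.Agent.H20.TP Pool.Agent.H89.RS Pool.Agent.H43.WR

variable {k K : Type} [Field k] [Field K] [Algebra k K] {X : Mod k K} {J : K → K → K → K} {κ F : Cart X}

/-- the local equations at `z` and at a specialization differ by a unit at `z` -/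
theorem eqz (D : Cart X) {z x : X.P} (h : z ⤳ x) : Un (X.O z) (D.eq x / D.eq z) := by
  obtain ⟨U, hU, hx, hu⟩ := D.loc x
  have h1 := un_inv (hu z (h.mem_open hU hx))
  rwa [inv_div] at h1

private theorem hasX_eff {D : Cart X} (hD : Effective D) : HasX D {x | ¬ Un (X.O x) (D.eq x)} := by
  refine ⟨1, one_ne_zero, fun x => ?_, ?_⟩
  · rw [one_mul, pow_one]
    exact hD x
  · simp only [one_mul]

/-- **Hartogs** -/
theorem hart [CharZero k] (h : Hyp X) (x : X.P) {a : K} (ha : ∀ P : PDiv X, P.η ⤳ x → a ∈ X.O P.η) : a ∈ X.O x := by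
  rcases eq_or_ne a 0 with h0 | h0
  · rw [h0]
    exact (X.O x).zero_mem
  obtain ⟨M, hM1, -, hM2⟩ := polar h a h0
  by_contra hn
  have h1 : ¬ Un (X.O x) (M.eq x) := fun h2 => hn ((polar_mem M a x (hM2 x)).2 h2.2.2)
  obtain ⟨z, hzx, htr, hz⟩ := hasX_srf h (hasX_eff hM1) (y := x) h1
  obtain ⟨P, hPz, hzP⟩ := pdiv_of_trdeg h htr
  have h3 : a ∈ X.O z := h.var.spec _ _ hzP (ha P (hPz.trans hzx))
  exact hz ⟨M.ne z, hM1 z, (polar_mem M a z (hM2 z)).1 h3⟩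

variable {y : X.P} {u : K} {d : Fin 2 → Derivation k K K} {t : Fin 2 → K} {i : ℕ}

/-- the local computation for a basis in good position -/
private theorem loc1 [CharZero k] (htr : Algebra.trdeg k K = 3) (hJ : Jac X J κ) (hpu : Pu X F u)
    (hd : JetU X y J κ u d t) (x : X.P) {b₁ b₂ b₃ : K} (h1 : b₁ ∈ X.O x) (h2 : b₂ ∈ X.O x) (h3 : b₃ ∈ X.O x)
    (hu : Un (X.O x) (J b₁ b₂ b₃ / κ.eq x)) (ha : J u b₂ b₃ ≠ 0) (h12 : J b₁ u b₃ / J u b₂ b₃ ∈ X.O x)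
    (h13 : J b₁ b₂ u / J u b₂ b₃ ∈ X.O x) {φ : Ix i → K} (hφ : ∀ l, φ l ∈ X.O x) :
    Wn d i φ * J u (t 0) (t 1) ^ wi i * F.eq x ^ (2 * wi i) / κ.eq x ^ wi i ∈ X.O x := by
  have hκ := κ.ne x
  have hB : J b₁ b₂ b₃ ≠ 0 := fun h4 => hu.1 (by rw [h4, zero_div])
  have key : ∀ a ∈ X.O x, ∀ b ∈ X.O x, ∀ c ∈ X.O x, J a b c / J b₁ b₂ b₃ ∈ X.O x := by
    intro a ha b hb c hc
    have e : J a b c / J b₁ b₂ b₃ = J a b c / κ.eq x * (J b₁ b₂ b₃ / κ.eq x)⁻¹ := by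
      field_simp
    rw [e]
    exact mul_mem (hJ.mem x a ha b hb c hc) hu.2.2
  have hself : ∀ a c, J a c c = 0 := fun a c => by
    rw [hJ.s12 a c c, hJ.s23 c a c, j_self hJ, neg_zero, neg_zero]
  have hself' : ∀ a c, J a c a = 0 := fun a c => by rw [hJ.s23, j_self hJ, neg_zero]
  have hst : ∀ j, ∀ f ∈ X.O x, pr hJ u b₂ b₃ j f ∈ X.O x := by
    intro j f hf
    fin_cases j
    · show pr hJ u b₂ b₃ 0 f ∈ X.O x
      rw [pr_zero]
      have h4 := cramer htr hJ u f b₃ b₁ b₂ b₃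
      rw [hself' b₃ f, zero_mul, add_zero] at h4
      have h5 : J u f b₃ / J u b₂ b₃ = J b₁ f b₃ / J b₁ b₂ b₃ +
          J b₂ f b₃ / J b₁ b₂ b₃ * (J b₁ u b₃ / J u b₂ b₃) := by
        field_simp
        linear_combination h4
      rw [h5]
      exact add_mem (key _ h1 _ hf _ h3) (mul_mem (key _ h2 _ hf _ h3) h12)
    · show pr hJ u b₂ b₃ 1 f ∈ X.O x
      rw [pr_one]
      have h4 := cramer htr hJ u b₂ f b₁ b₂ b₃
      rw [j_self hJ b₂ f, zero_mul, add_zero] at h4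
      have h5 : J u b₂ f / J u b₂ b₃ = J b₁ b₂ f / J b₁ b₂ b₃ +
          J b₃ b₂ f / J b₁ b₂ b₃ * (J b₁ b₂ u / J u b₂ b₃) := by
        field_simp
        linear_combination h4
      rw [h5]
      exact add_mem (key _ h1 _ h2 _ hf) (mul_mem (key _ h3 _ h2 _ hf) h13)
  have hα : J u b₂ b₃ * F.eq x ^ 2 / κ.eq x ∈ X.O x := by
    have case1 : u ∈ X.O x → J u b₂ b₃ * F.eq x ^ 2 / κ.eq x ∈ X.O x := by
      intro h4
      have e : J u b₂ b₃ * F.eq x ^ 2 / κ.eq x = J u b₂ b₃ / κ.eq x * F.eq x ^ 2 := by ring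
      rw [e]
      exact mul_mem (hJ.mem x _ h4 _ h2 _ h3) (pow_mem (hpu.one x) 2)
    rcases hpu.bpf x with h4 | h4
    · refine case1 ?_
      have e : u = u * F.eq x * (F.eq x)⁻¹ := by
        rw [mul_assoc, mul_inv_cancel₀ h4.1, mul_one]
      rw [e]
      exact mul_mem (hpu.sec x) h4.2.2
    · have hu0 : u ≠ 0 := left_ne_zero_of_mul h4.1
      have hF0 := F.ne x
      have h5 : u⁻¹ ∈ X.O x := by
        have e : u⁻¹ = F.eq x * (u * F.eq x)⁻¹ := by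
          field_simp
        rw [e]
        exact mul_mem (hpu.one x) h4.2.2
      have h6 : J u b₂ b₃ = - (u ^ 2 * J u⁻¹ b₂ b₃) := by
        have h7 := hJ.leib u u⁻¹ b₂ b₃
        rw [mul_inv_cancel₀ hu0] at h7
        have h8 := hJ.alg 1 b₂ b₃
        rw [map_one] at h8
        rw [h8] at h7
        have h9 : u * (u * J u⁻¹ b₂ b₃ + u⁻¹ * J u b₂ b₃) = 0 := by rw [← h7, mul_zero]
        have h10 : u * (u⁻¹ * J u b₂ b₃) = J u b₂ b₃ := by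
          rw [← mul_assoc, mul_inv_cancel₀ hu0, one_mul]
        rw [mul_add, h10] at h9
        linear_combination h9
      have e : J u b₂ b₃ * F.eq x ^ 2 / κ.eq x = - ((u * F.eq x) ^ 2 * (J u⁻¹ b₂ b₃ / κ.eq x)) := by
        rw [h6]
        ring
      rw [e]
      exact neg_mem (mul_mem (pow_mem h4.2.1 2) (hJ.mem x _ h5 _ h2 _ h3))
  have e : Wn d i φ * J u (t 0) (t 1) ^ wi i * F.eq x ^ (2 * wi i) / κ.eq x ^ wi i =
      Wn (pr hJ u b₂ b₃) i φ * (J u b₂ b₃ * F.eq x ^ 2 / κ.eq x) ^ wi i := by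
    rw [wn_pr hJ hd ha, div_pow, mul_pow, ← pow_mul]
    ring
  rw [e]
  exact mul_mem (wn_mem hst hφ) (pow_mem hα _)

/-- **at a prime divisor** -/
theorem loc [CharZero k] (h : Hyp X) (hJ : Jac X J κ) (hpu : Pu X F u) (hd : JetU X y J κ u d t) (P : PDiv X)
    {φ : Ix i → K} (hφ : ∀ l, φ l ∈ X.O P.η) :
    Wn d i φ * J u (t 0) (t 1) ^ wi i * F.eq P.η ^ (2 * wi i) / κ.eq P.η ^ wi i ∈ X.O P.η := by
  obtain ⟨b₁, h1, b₂, h2, b₃, h3, hu⟩ := hJ.gen P.η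
  have hval : ∀ a b : K, a ≠ 0 → b / a ∈ X.O P.η ∨ (b ≠ 0 ∧ a / b ∈ X.O P.η) := by
    intro a b ha
    rcases eq_or_ne b 0 with hb | hb
    · left
      rw [hb, zero_div]
      exact (X.O P.η).zero_mem
    rcases P.p.R.mem_or_inv_mem (b / a) with h4 | h4
    · exact Or.inl ((P.mem _).2 h4)
    · right
      rw [inv_div] at h4
      exact ⟨hb, (P.mem _).2 h4⟩
  have hne : J b₁ b₂ b₃ ≠ 0 := fun h4 => hu.1 (by rw [h4, zero_div])
  have hJt : J u (t 0) (t 1) ≠ 0 := fun h4 => hd.un.1 (by rw [h4, zero_div])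
  -- the three cases
  have c1 : J u b₂ b₃ ≠ 0 → J b₁ u b₃ / J u b₂ b₃ ∈ X.O P.η → J b₁ b₂ u / J u b₂ b₃ ∈ X.O P.η →
      Wn d i φ * J u (t 0) (t 1) ^ wi i * F.eq P.η ^ (2 * wi i) / κ.eq P.η ^ wi i ∈ X.O P.η :=
    fun ha h12 h13 => loc1 h.tr hJ hpu hd P.η h1 h2 h3 hu ha h12 h13 hφ
  have cyc : ∀ a b c, J a b c = J b c a := fun a b c => by rw [hJ.s12, hJ.s23, neg_neg]
  have c2 : J b₁ u b₃ ≠ 0 → J u b₂ b₃ / J b₁ u b₃ ∈ X.O P.η → J b₁ b₂ u / J b₁ u b₃ ∈ X.O P.η →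
      Wn d i φ * J u (t 0) (t 1) ^ wi i * F.eq P.η ^ (2 * wi i) / κ.eq P.η ^ wi i ∈ X.O P.η := by
    intro ha h12 h13
    refine loc1 h.tr hJ hpu hd P.η h2 h3 h1 ?_ ?_ ?_ ?_ hφ
    · rw [← cyc b₁ b₂ b₃]
      exact hu
    · rw [← cyc b₁ u b₃]
      exact ha
    · rw [← cyc b₁ u b₃, ← cyc b₁ b₂ u]
      exact h13
    · rw [← cyc b₁ u b₃, ← cyc u b₂ b₃]
      exact h12
  have c3 : J b₁ b₂ u ≠ 0 → J u b₂ b₃ / J b₁ b₂ u ∈ X.O P.η → J b₁ u b₃ / J b₁ b₂ u ∈ X.O P.η →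
      Wn d i φ * J u (t 0) (t 1) ^ wi i * F.eq P.η ^ (2 * wi i) / κ.eq P.η ^ wi i ∈ X.O P.η := by
    intro ha h12 h13
    have e0 : J b₃ b₁ b₂ = J b₁ b₂ b₃ := cyc _ _ _
    have e1 : J u b₁ b₂ = J b₁ b₂ u := cyc _ _ _
    have e2 : J b₃ u b₂ = J u b₂ b₃ := cyc _ _ _
    have e3 : J b₃ b₁ u = J b₁ u b₃ := cyc _ _ _
    refine loc1 h.tr hJ hpu hd P.η h3 h1 h2 ?_ ?_ ?_ ?_ hφ
    · rw [e0]
      exact hu
    · rw [e1]
      exact ha
    · rw [e1, e2]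
      exact h12
    · rw [e1, e3]
      exact h13
  obtain ⟨a₁, hα1⟩ : ∃ a, a = J u b₂ b₃ := ⟨_, rfl⟩
  obtain ⟨a₂, hα2⟩ : ∃ a, a = J b₁ u b₃ := ⟨_, rfl⟩
  obtain ⟨a₃, hα3⟩ : ∃ a, a = J b₁ b₂ u := ⟨_, rfl⟩
  rw [← hα1, ← hα2, ← hα3] at c1 c2 c3
  have h0 : ¬ (a₁ = 0 ∧ a₂ = 0 ∧ a₃ = 0) := by
    rintro ⟨h4, h5, h6⟩
    have h7 := cramer h.tr hJ u (t 0) (t 1) b₁ b₂ b₃
    rw [← hα1, ← hα2, ← hα3, h4, h5, h6, mul_zero, mul_zero, mul_zero, add_zero, add_zero] at h7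
    exact mul_ne_zero hJt hne h7
  have tr : ∀ a b c : K, b ≠ 0 → a / b ∈ X.O P.η → b / c ∈ X.O P.η → a / c ∈ X.O P.η := by
    intro a b c hb h4 h5
    have e : a / c = a / b * (b / c) := by field_simp
    rw [e]
    exact mul_mem h4 h5
  have zr : ∀ a b : K, a = 0 → a / b ∈ X.O P.η := fun a b hab => by
    rw [hab, zero_div]
    exact (X.O P.η).zero_mem
  by_cases z1 : a₁ = 0
  · by_cases z2 : a₂ = 0
    · have z3 : a₃ ≠ 0 := fun h4 => h0 ⟨z1, z2, h4⟩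
      exact c3 z3 (zr _ _ z1) (zr _ _ z2)
    · rcases hval a₂ a₃ z2 with h4 | ⟨z3, h4⟩
      · exact c2 z2 (zr _ _ z1) h4
      · exact c3 z3 (zr _ _ z1) h4
  · rcases hval a₁ a₂ z1 with h4 | ⟨z2, h4⟩
    · rcases hval a₁ a₃ z1 with h5 | ⟨z3, h5⟩
      · exact c1 z1 h4 h5
      · exact c3 z3 h5 (tr _ _ _ z1 h4 h5)
    · rcases hval a₂ a₃ z2 with h5 | ⟨z3, h5⟩
      · exact c2 z2 h4 h5
      · exact c3 z3 (tr _ _ _ z2 h4 h5) h5

/-- **the determinant is a section** -/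
theorem glo [CharZero k] (h : Hyp X) (hJ : Jac X J κ) (hpu : Pu X F u) (hd : JetU X y J κ u d t) {D : Cart X}
    {m : Ix i → ℤ} {φ : Ix i → K} (hφ : ∀ l, ∀ x, φ l * (D.eq x * F.eq x ^ m l) ∈ X.O x) (x : X.P) :
    Wn d i φ * J u (t 0) (t 1) ^ wi i *
      (D.eq x ^ Fintype.card (Ix i) * F.eq x ^ (∑ l, m l) * F.eq x ^ (2 * wi i) / κ.eq x ^ wi i) ∈ X.O x := by
  refine hart h x fun P hP => ?_
  -- the local equation of the pencil
  obtain ⟨g, hg0, hgF, hgd⟩ : ∃ g : K, g ≠ 0 ∧ Un (X.O P.η) (F.eq P.η / g) ∧ ∀ j, d j g = 0 := by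
    rcases hpu.bpf P.η with h4 | h4
    · exact ⟨1, one_ne_zero, by rw [div_one]; exact h4, fun j => by rw [Derivation.map_one_eq_zero]⟩
    · have hu0 : u ≠ 0 := left_ne_zero_of_mul h4.1
      refine ⟨u⁻¹, inv_ne_zero hu0, by rw [div_inv_eq_mul, mul_comm]; exact h4, fun j => ?_⟩
      rw [Derivation.leibniz_inv, hd.du j, smul_zero]
  have hgz : ∀ (n : ℤ) (j : Fin 2), d j (g ^ n) = 0 := by
    intro n j
    have hnat : ∀ n : ℕ, d j (g ^ n) = 0 := fun n => by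
      rw [Derivation.leibniz_pow, hgd j, smul_zero, smul_zero]
    rcases n with n | n
    · rw [Int.ofNat_eq_natCast, zpow_natCast]
      exact hnat n
    · rw [zpow_negSucc, Derivation.leibniz_inv, hnat, smul_zero]
  have hv := D.ne P.η
  have hF0 := F.ne P.η
  have hκ := κ.ne P.η
  have unz : ∀ {a : K}, Un (X.O P.η) a → ∀ n : ℤ, Un (X.O P.η) (a ^ n) := by
    intro a ha n
    rcases n with n | n
    · rw [Int.ofNat_eq_natCast, zpow_natCast]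
      exact un_pow ha n
    · rw [zpow_negSucc]
      exact un_inv (un_pow ha _)
  have h1 : ∀ l, g ^ m l * (D.eq P.η * φ l) ∈ X.O P.η := by
    intro l
    have e : g ^ m l * (D.eq P.η * φ l) = φ l * (D.eq P.η * F.eq P.η ^ m l) * ((F.eq P.η / g) ^ m l)⁻¹ := by
      rw [div_zpow, inv_div]
      have h2 : F.eq P.η ^ m l ≠ 0 := zpow_ne_zero _ hF0
      field_simp
    rw [e]
    exact mul_mem (hφ l P.η) (unz hgF _).2.2
  have h2 := loc h hJ hpu hd P h1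
  rw [wn_cols (fun l => hgz _ 0) (fun l => hgz _ 1), wn_mul (brk_cm hd.jet.cm)] at h2
  have h3 : ∀ s : Finset (Ix i), ∏ l ∈ s, g ^ m l = g ^ (∑ l ∈ s, m l) := by
    intro s
    classical
    induction s using Finset.induction_on with
    | empty => simp
    | insert a s ha ih => rw [Finset.prod_insert ha, Finset.sum_insert ha, ih, zpow_add₀ hg0]
  rw [h3] at h2
  -- comparison of the local equations
  have e1 := eqz D hP
  have e2 := eqz F hP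
  have e3 := eqz κ hP
  have e4 : Un (X.O P.η) (F.eq x / g) := by
    have e : F.eq x / g = F.eq x / F.eq P.η * (F.eq P.η / g) := by field_simp
    rw [e]
    exact un_mul e2 hgF
  have hF := F.ne x
  have hκx := κ.ne x
  obtain ⟨W, hW⟩ : ∃ W, W = Wn d i φ * J u (t 0) (t 1) ^ wi i := ⟨_, rfl⟩
  have e5 : Wn d i φ * J u (t 0) (t 1) ^ wi i *
      (D.eq x ^ Fintype.card (Ix i) * F.eq x ^ (∑ l, m l) * F.eq x ^ (2 * wi i) / κ.eq x ^ wi i) =
      ((g ^ ∑ l, m l) * (D.eq P.η ^ Fintype.card (Ix i) * Wn d i φ) * J u (t 0) (t 1) ^ wi i *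
        F.eq P.η ^ (2 * wi i) / κ.eq P.η ^ wi i) *
      ((D.eq x / D.eq P.η) ^ Fintype.card (Ix i) * (F.eq x / g) ^ (∑ l, m l) * (F.eq x / F.eq P.η) ^ (2 * wi i) *
        ((κ.eq x / κ.eq P.η)⁻¹) ^ wi i) := by
    rw [div_pow, div_zpow, div_pow, inv_div, div_pow]
    have h4 : g ^ (∑ l, m l) ≠ 0 := zpow_ne_zero _ hg0
    field_simp
  rw [e5]
  exact mul_mem h2 (mul_mem (mul_mem (mul_mem (pow_mem e1.2.1 _) (unz e4 _).2.1) (pow_mem e2.2.1 _))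
    (pow_mem e3.2.2 _))

end Pool.Agent.H41.WR
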