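import Pool.Agent.H41.WR.Dt

/-!
# [H41 WR Chg] THEOREM WR (MP_e49dc9_ag): change of the pair of derivations, multiplication of the functions

* `wn_act`: `Wn (act A d) i φ = A.det ^ wi i * Wn d i φ` for `A.det ≠ 0`, `Brk d`.
* `wn_mul`: `Wn d i (v φ) = v ^ M * Wn d i φ`, `M` the number of indices.
* `wn_cols`: `Wn d i (c l * φ l) = (∏ c l) * Wn d i φ` if `d 0 (c l) = 0 = d 1 (c l)`.
* `wi_eq`: `6 wi i = i(i+1)(i+2)`.
-/

set_option autoImplicit false

namespace Pool.Agent.H41.WR

open Pool.Agent.H16.WR (Ix)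

variable {k K : Type} [Field k] [Field K] [Algebra k K] {d : Fin 2 → Derivation k K K} {i : ℕ}

/-! ## the two orders -/

/-- order by the total degree, then by the second coordinate -/
def b1 (p : Ix i) : ℕ := (p.1.1 + p.1.2) * (i + 1) + p.1.2

/-- order by the total degree, then by the first coordinate -/
def b2 (p : Ix i) : ℕ := (p.1.1 + p.1.2) * (i + 1) + p.1.1

private theorem lex_lt {i s s' t t' : ℕ} (ht : t ≤ i) (h : s < s' ∨ s = s' ∧ t < t') :
    s * (i + 1) + t < s' * (i + 1) + t' := by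
  rcases h with h | ⟨rfl, h⟩
  · have h1 : (s + 1) * (i + 1) ≤ s' * (i + 1) := Nat.mul_le_mul_right _ h
    rw [add_mul, one_mul] at h1
    omega
  · omega

theorem b1_lt {p q : Ix i} (h : (q.1.1 : ℕ) + q.1.2 < p.1.1 + p.1.2 ∨
    (q.1.1 : ℕ) + q.1.2 = p.1.1 + p.1.2 ∧ (p.1.1 : ℕ) < q.1.1) : b1 q < b1 p :=
  lex_lt (by have := q.1.2.2; omega) (by omega)

theorem b2_lt {p q : Ix i} (h : (q.1.1 : ℕ) + q.1.2 < p.1.1 + p.1.2 ∨
    (q.1.1 : ℕ) + q.1.2 = p.1.1 + p.1.2 ∧ (p.1.2 : ℕ) < q.1.2) : b2 q < b2 p :=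
  lex_lt (by have := q.1.1.2; omega) (by omega)

private theorem ix_ext {p q : Ix i} (h1 : (p.1.1 : ℕ) = q.1.1) (h2 : (p.1.2 : ℕ) = q.1.2) : p = q :=
  Subtype.ext (Prod.ext (Fin.ext h1) (Fin.ext h2))

theorem b1_inj : Function.Injective (b1 (i := i)) := by
  intro p q h
  by_contra hne
  have h1 : ((p.1.1 : ℕ) + p.1.2 < q.1.1 + q.1.2 ∨ (p.1.1 : ℕ) + p.1.2 = q.1.1 + q.1.2 ∧ (q.1.1 : ℕ) < p.1.1) ∨
      ((q.1.1 : ℕ) + q.1.2 < p.1.1 + p.1.2 ∨ (q.1.1 : ℕ) + q.1.2 = p.1.1 + p.1.2 ∧ (p.1.1 : ℕ) < q.1.1) := by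
    by_contra h2
    exact hne (ix_ext (by omega) (by omega))
  rcases h1 with h1 | h1
  · have := b1_lt h1
    omega
  · have := b1_lt h1
    omega

theorem b2_inj : Function.Injective (b2 (i := i)) := by
  intro p q h
  by_contra hne
  have h1 : ((p.1.1 : ℕ) + p.1.2 < q.1.1 + q.1.2 ∨ (p.1.1 : ℕ) + p.1.2 = q.1.1 + q.1.2 ∧ (q.1.2 : ℕ) < p.1.2) ∨
      ((q.1.1 : ℕ) + q.1.2 < p.1.1 + p.1.2 ∨ (q.1.1 : ℕ) + q.1.2 = p.1.1 + p.1.2 ∧ (p.1.2 : ℕ) < q.1.2) := by
    by_contra h2
    exact hne (ix_ext (by omega) (by omega))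
  rcases h1 with h1 | h1
  · have := b2_lt h1
    omega
  · have := b2_lt h1
    omega

/-- the span, indexed by `Ix i` -/
theorem to_ix {S : ℕ → ℕ → Prop} {b : Ix i → ℕ} {p : Ix i}
    (h : ∀ a c, S a c → ∃ q : Ix i, (q.1.1 : ℕ) = a ∧ (q.1.2 : ℕ) = c ∧ b q < b p) :
    Sp d S ≤ Submodule.span K ((fun q : Ix i => op d q.1.1 q.1.2) '' {q | b q < b p}) := by
  refine Submodule.span_mono ?_
  rintro _ ⟨a, c, h1, rfl⟩
  obtain ⟨q, h2, h3, h4⟩ := h a c h1
  exact ⟨q, h4, by dsimp only; rw [h2, h3]⟩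

/-- evaluation -/
def evl (f : K) : Module.End k K →ₗ[K] K where
  toFun D := D f
  map_add' _ _ := rfl
  map_smul' _ _ := rfl

/-! ## the elementary changes -/

/-- the indices of the first order -/
abbrev S1 (n a₀ : ℕ) (a b : ℕ) : Prop := a + b < n ∨ a + b = n ∧ a₀ < a

/-- the indices of the second order -/
abbrev S2 (n b₀ : ℕ) (a b : ℕ) : Prop := a + b < n ∨ a + b = n ∧ b₀ < b

private theorem der0 (d : Fin 2 → Derivation k K K) (x : K) : x • d 0 + (0 : K) • d 1 = x • d 0 := by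
  rw [zero_smul, add_zero]

private theorem der1 (d : Fin 2 → Derivation k K K) (y : K) : (0 : K) • d 0 + y • d 1 = y • d 1 := by
  rw [zero_smul, zero_add]

theorem chg_diag (hd : Brk d) (x y : K) (a b : ℕ) :
    ((x • d 0 : Derivation k K K) : K →ₗ[k] K) ^ a * ((y • d 1 : Derivation k K K) : K →ₗ[k] K) ^ b -
      (x ^ a * y ^ b) • op d a b ∈ Sp d fun p q => p + q < a + b := by
  have h1 : ∀ b, ((y • d 1 : Derivation k K K) : K →ₗ[k] K) ^ b - y ^ b • op d 0 b ∈ Sp d fun p q => p + q < b := by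
    intro b
    induction b with
    | zero =>
      rw [pow_zero, pow_zero, one_smul]
      unfold op
      rw [pow_zero, pow_zero, mul_one, sub_self]
      exact Submodule.zero_mem _
    | succ b ih =>
      have h2 := step (S' := fun p q => p + q < b + 1) hd ih 0 y (fun p q h => by omega) (fun _ p q h => by omega)
        (fun p q h p' q' h' => by omega) (fun p' q' h' => by omega)
      rw [der1, mul_zero, zero_smul, sub_zero] at h2
      rwa [pow_succ', pow_succ]
  induction a with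
  | zero =>
    rw [pow_zero, pow_zero, one_mul, one_mul, Nat.zero_add]
    exact h1 b
  | succ a ih =>
    have h2 := step (S' := fun p q => p + q < a + 1 + b) hd ih x 0 (fun p q h => by omega) (fun _ p q h => by omega)
      (fun p q h p' q' h' => by omega) (fun p' q' h' => by omega)
    rw [der0, mul_zero, zero_smul, sub_zero] at h2
    have e : x ^ (a + 1) * y ^ b = x ^ a * y ^ b * x := by ring
    rw [pow_succ', mul_assoc, e]
    exact h2

theorem chg_low (hd : Brk d) (e : K) (a b : ℕ) :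
    (d 0 : K →ₗ[k] K) ^ a * ((e • d 0 + (1 : K) • d 1 : Derivation k K K) : K →ₗ[k] K) ^ b - op d a b ∈
      Sp d (S1 (a + b) a) := by
  have h1 : ∀ b, ((e • d 0 + (1 : K) • d 1 : Derivation k K K) : K →ₗ[k] K) ^ b - op d 0 b ∈ Sp d (S1 b 0) := by
    intro b
    induction b with
    | zero =>
      rw [pow_zero]
      unfold op
      rw [pow_zero, pow_zero, mul_one, sub_self]
      exact Submodule.zero_mem _
    | succ b ih =>
      rw [← one_smul K (op d 0 b)] at ih
      have h2 := step (S' := S1 (b + 1) 0) hd ih e 1 (fun p q h => by unfold S1 at *; omega)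
        (fun _ p q h => by unfold S1 at *; omega) (fun p q h p' q' h' => by unfold S1 at *; omega)
        (fun p' q' h' => by unfold S1 at *; omega)
      rw [one_mul, one_mul, one_smul K (op d 0 (b + 1))] at h2
      have h3 : e • op d (0 + 1) b ∈ Sp d (S1 (b + 1) 0) := Submodule.smul_mem _ _ (op_mem (by unfold S1; omega))
      have h4 := Submodule.add_mem _ h2 h3
      rw [pow_succ']
      convert h4 using 1
      abel
  induction a with
  | zero =>
    rw [pow_zero, one_mul, Nat.zero_add]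
    exact h1 b
  | succ a ih =>
    rw [← one_smul K (op d a b)] at ih
    have h2 := step (S' := S1 (a + 1 + b) (a + 1)) hd ih 1 0 (fun p q h => by unfold S1 at *; omega)
      (fun h => absurd rfl h) (fun p q h p' q' h' => by unfold S1 at *; omega)
      (fun p' q' h' => by unfold S1 at *; omega)
    rw [der0, mul_zero, zero_smul, sub_zero, mul_one, one_smul K (op d (a + 1) b), one_smul] at h2
    rw [pow_succ', mul_assoc]
    exact h2

theorem chg_upp (hd : Brk d) (e : K) (a b : ℕ) :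
    (((1 : K) • d 0 + e • d 1 : Derivation k K K) : K →ₗ[k] K) ^ a * (d 1 : K →ₗ[k] K) ^ b - op d a b ∈
      Sp d (S2 (a + b) b) := by
  induction a with
  | zero =>
    unfold op
    rw [pow_zero, pow_zero, sub_self]
    exact Submodule.zero_mem _
  | succ a ih =>
    rw [← one_smul K (op d a b)] at ih
    have h2 := step (S' := S2 (a + 1 + b) b) hd ih 1 e (fun p q h => by unfold S2 at *; omega)
      (fun _ p q h => by unfold S2 at *; omega) (fun p q h p' q' h' => by unfold S2 at *; omega)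
      (fun p' q' h' => by unfold S2 at *; omega)
    rw [one_mul, one_mul, one_smul K (op d (a + 1) b)] at h2
    have h3 : e • op d a (b + 1) ∈ Sp d (S2 (a + 1 + b) b) := Submodule.smul_mem _ _ (op_mem (by unfold S2; omega))
    have h4 := Submodule.add_mem _ h2 h3
    rw [pow_succ', mul_assoc]
    convert h4 using 1
    abel

theorem chg_mul (hd : Brk d) (v : K) (a b : ℕ) :
    op d a b * LinearMap.mulLeft k v - v • op d a b ∈ Sp d fun p q => p + q < a + b := by
  have h1 : ∀ b, op d 0 b * LinearMap.mulLeft k v - v • op d 0 b ∈ Sp d fun p q => p + q < b := by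
    intro b
    induction b with
    | zero =>
      have e : op d 0 0 * LinearMap.mulLeft k v - v • op d 0 0 = 0 := by
        refine LinearMap.ext fun f => ?_
        show v * f - v * f = 0
        ring
      rw [e]
      exact Submodule.zero_mem _
    | succ b ih =>
      have h2 := step (S' := fun p q => p + q < b + 1) hd ih 0 1 (fun p q h => by omega) (fun _ p q h => by omega)
        (fun p q h p' q' h' => by omega) (fun p' q' h' => by omega)
      rw [der1, mul_zero, zero_smul, sub_zero, mul_one, one_smul, ← mul_assoc, op_zero] at h2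
      exact h2
  induction a with
  | zero =>
    rw [Nat.zero_add]
    exact h1 b
  | succ a ih =>
    have h2 := step (S' := fun p q => p + q < a + 1 + b) hd ih 1 0 (fun p q h => by omega) (fun _ p q h => by omega)
      (fun p q h p' q' h' => by omega) (fun p' q' h' => by omega)
    rw [der0, mul_zero, zero_smul, sub_zero, mul_one, one_smul, ← mul_assoc, op_succ] at h2
    exact h2

/-! ## sums over the indices -/

theorem wi_eq (i : ℕ) : 6 * wi i = i * (i + 1) * (i + 2) := Pool.Agent.H16.WR.sum_ix i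

/-- the swap -/
def sw (i : ℕ) : Ix i ≃ Ix i where
  toFun p := ⟨(p.1.2, p.1.1), by have := p.2; dsimp only; omega⟩
  invFun p := ⟨(p.1.2, p.1.1), by have := p.2; dsimp only; omega⟩
  left_inv _ := rfl
  right_inv _ := rfl

theorem wi_snd (i : ℕ) : ∑ p : Ix i, (p.1.2 : ℕ) = wi i :=
  (Equiv.sum_comp (sw i) fun p : Ix i => (p.1.1 : ℕ))

/-! ## the determinant -/

theorem brk_act (hd : Brk d) {A : Matrix (Fin 2) (Fin 2) K} (hA : A.det ≠ 0) : Brk (act A d) := by
  obtain ⟨α, β, hαβ⟩ := hd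
  rw [Matrix.det_fin_two] at hA
  have e : ∀ (j : Fin 2) (f : K), act A d j f = A j 0 * d 0 f + A j 1 * d 1 f := fun j f => rfl
  have L : ∀ (j : Fin 2) (x y : K), d j (x * y) = x * d j y + y * d j x := fun j x y => by
    rw [Derivation.leibniz, smul_eq_mul, smul_eq_mul]
  obtain ⟨γ₀, h₀⟩ : ∃ γ₀, γ₀ = act A d 0 (A 1 0) - act A d 1 (A 0 0) + (A 0 0 * A 1 1 - A 0 1 * A 1 0) * α := ⟨_, rfl⟩
  obtain ⟨γ₁, h₁⟩ : ∃ γ₁, γ₁ = act A d 0 (A 1 1) - act A d 1 (A 0 1) + (A 0 0 * A 1 1 - A 0 1 * A 1 0) * β := ⟨_, rfl⟩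
  refine ⟨(γ₀ * A 1 1 - γ₁ * A 1 0) / (A 0 0 * A 1 1 - A 0 1 * A 1 0),
    (γ₁ * A 0 0 - γ₀ * A 0 1) / (A 0 0 * A 1 1 - A 0 1 * A 1 0), fun f => ?_⟩
  have h2 : act A d 0 (act A d 1 f) - act A d 1 (act A d 0 f) = γ₀ * d 0 f + γ₁ * d 1 f := by
    have h3 := hαβ f
    rw [h₀, h₁]
    simp only [e, map_add, L]
    linear_combination (A 0 0 * A 1 1 - A 0 1 * A 1 0) * h3
  rw [h2, e, e]
  obtain ⟨D, hD⟩ : ∃ D, D = A 0 0 * A 1 1 - A 0 1 * A 1 0 := ⟨_, rfl⟩
  rw [← hD] at hA ⊢
  have h3 : γ₀ * d 0 f + γ₁ * d 1 f = ((γ₀ * A 1 1 - γ₁ * A 1 0) * (A 0 0 * d 0 f + A 0 1 * d 1 f) +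
      (γ₁ * A 0 0 - γ₀ * A 0 1) * (A 1 0 * d 0 f + A 1 1 * d 1 f)) / D := by
    rw [eq_div_iff hA, hD]
    ring
  rw [h3]
  ring

theorem act_mul (A B : Matrix (Fin 2) (Fin 2) K) (d : Fin 2 → Derivation k K K) :
    act (A * B) d = act A (act B d) := by
  funext j
  refine Derivation.ext fun f => ?_
  show (A * B) j 0 * d 0 f + (A * B) j 1 * d 1 f =
    A j 0 * (B 0 0 * d 0 f + B 0 1 * d 1 f) + A j 1 * (B 1 0 * d 0 f + B 1 1 * d 1 f)
  rw [Matrix.mul_apply, Matrix.mul_apply, Fin.sum_univ_two, Fin.sum_univ_two]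
  ring

private theorem wn_tri {d' : Fin 2 → Derivation k K K} (c : Ix i → K) (b : Ix i → ℕ) (hb : Function.Injective b)
    (h : ∀ p : Ix i, op d' p.1.1 p.1.2 - c p • op d p.1.1 p.1.2 ∈
      Submodule.span K ((fun q : Ix i => op d q.1.1 q.1.2) '' {q | b q < b p})) (φ : Ix i → K) :
    Wn d' i φ = (∏ p, c p) * Wn d i φ :=
  det_tri (fun p : Ix i => op d p.1.1 p.1.2) (fun p : Ix i => op d' p.1.1 p.1.2) c b hb h fun l => evl (φ l)

private theorem ix_of {n a b : ℕ} (h : a + b < n) (hn : n ≤ i) : ∃ q : Ix i, (q.1.1 : ℕ) = a ∧ (q.1.2 : ℕ) = b :=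
  ⟨ix (by omega), rfl, rfl⟩

/-- **change of the pair of derivations** -/
theorem wn_act (hd : Brk d) {A : Matrix (Fin 2) (Fin 2) K} (hA : A.det ≠ 0) (φ : Ix i → K) :
    Wn (act A d) i φ = A.det ^ wi i * Wn d i φ := by
  have key : ∀ d : Fin 2 → Derivation k K K, Brk d → Wn (act A d) i φ = A.det ^ wi i * Wn d i φ := by
    refine Matrix.diagonal_transvection_induction_of_det_ne_zero
      (fun A => ∀ d : Fin 2 → Derivation k K K, Brk d → Wn (act A d) i φ = A.det ^ wi i * Wn d i φ) A hA ?_ ?_ ?_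
    · intro D _ d hd
      have e0 : act (Matrix.diagonal D) d 0 = D 0 • d 0 := by
        show Matrix.diagonal D 0 0 • d 0 + Matrix.diagonal D 0 1 • d 1 = _
        rw [Matrix.diagonal_apply_eq, Matrix.diagonal_apply_ne _ (by decide), zero_smul, add_zero]
      have e1 : act (Matrix.diagonal D) d 1 = D 1 • d 1 := by
        show Matrix.diagonal D 1 0 • d 0 + Matrix.diagonal D 1 1 • d 1 = _
        rw [Matrix.diagonal_apply_eq, Matrix.diagonal_apply_ne _ (by decide), zero_smul, zero_add]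
      rw [wn_tri (d := d) (fun p => D 0 ^ (p.1.1 : ℕ) * D 1 ^ (p.1.2 : ℕ)) b1 b1_inj fun p => ?_]
      · rw [Finset.prod_mul_distrib, Finset.prod_pow_eq_pow_sum, Finset.prod_pow_eq_pow_sum, wi_snd,
          Matrix.det_diagonal, Fin.prod_univ_two, mul_pow]
        rfl
      · have h1 := chg_diag hd (D 0) (D 1) p.1.1 p.1.2
        rw [← e0, ← e1] at h1
        refine to_ix (fun a c h2 => ?_) h1
        obtain ⟨q, rfl, rfl⟩ := ix_of h2 p.2
        exact ⟨q, rfl, rfl, b1_lt (Or.inl h2)⟩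
    · intro t d hd
      have hdet : t.toMatrix.det = 1 := Matrix.TransvectionStruct.det t
      rw [hdet, one_pow, one_mul]
      obtain ⟨i', j', hij, e⟩ := t
      have hcase : (i' = 1 ∧ j' = 0) ∨ (i' = 0 ∧ j' = 1) := by
        have h5 : ∀ a b : Fin 2, a ≠ b → (a = 1 ∧ b = 0) ∨ (a = 0 ∧ b = 1) := by decide
        exact h5 i' j' hij
      rcases hcase with ⟨rfl, rfl⟩ | ⟨rfl, rfl⟩
      · have e0 : act (Matrix.TransvectionStruct.toMatrix ⟨(1 : Fin 2), (0 : Fin 2), hij, e⟩) d 0 = d 0 := by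
          refine Derivation.ext fun f => ?_
          show (Matrix.transvection (1 : Fin 2) (0 : Fin 2) e) 0 0 * d 0 f +
            (Matrix.transvection (1 : Fin 2) (0 : Fin 2) e) 0 1 * d 1 f = _
          simp [Matrix.transvection]
        have e1 : act (Matrix.TransvectionStruct.toMatrix ⟨(1 : Fin 2), (0 : Fin 2), hij, e⟩) d 1 =
            e • d 0 + (1 : K) • d 1 := by
          refine Derivation.ext fun f => ?_
          show (Matrix.transvection (1 : Fin 2) (0 : Fin 2) e) 1 0 * d 0 f +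
            (Matrix.transvection (1 : Fin 2) (0 : Fin 2) e) 1 1 * d 1 f = e * d 0 f + 1 * d 1 f
          simp [Matrix.transvection]
        rw [wn_tri (d := d) (fun _ => 1) b1 b1_inj fun p => ?_]
        · rw [Finset.prod_const_one, one_mul]
        · have h1 := chg_low hd e p.1.1 p.1.2
          rw [← e1] at h1
          nth_rewrite 1 [← e0] at h1
          rw [one_smul]
          refine to_ix (fun a c h2 => ?_) h1
          have h3 : a + c ≤ i := by have := p.2; unfold S1 at h2; omega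
          exact ⟨ix h3, rfl, rfl, b1_lt h2⟩
      · have e0 : act (Matrix.TransvectionStruct.toMatrix ⟨(0 : Fin 2), (1 : Fin 2), hij, e⟩) d 0 =
            (1 : K) • d 0 + e • d 1 := by
          refine Derivation.ext fun f => ?_
          show (Matrix.transvection (0 : Fin 2) (1 : Fin 2) e) 0 0 * d 0 f +
            (Matrix.transvection (0 : Fin 2) (1 : Fin 2) e) 0 1 * d 1 f = 1 * d 0 f + e * d 1 f
          simp [Matrix.transvection]
        have e1 : act (Matrix.TransvectionStruct.toMatrix ⟨(0 : Fin 2), (1 : Fin 2), hij, e⟩) d 1 = d 1 := by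
          refine Derivation.ext fun f => ?_
          show (Matrix.transvection (0 : Fin 2) (1 : Fin 2) e) 1 0 * d 0 f +
            (Matrix.transvection (0 : Fin 2) (1 : Fin 2) e) 1 1 * d 1 f = _
          simp [Matrix.transvection]
        rw [wn_tri (d := d) (fun _ => 1) b2 b2_inj fun p => ?_]
        · rw [Finset.prod_const_one, one_mul]
        · have h1 := chg_upp hd e p.1.1 p.1.2
          rw [← e0] at h1
          nth_rewrite 1 [← e1] at h1
          rw [one_smul]
          refine to_ix (fun a c h2 => ?_) h1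
          have h3 : a + c ≤ i := by have := p.2; unfold S2 at h2; omega
          exact ⟨ix h3, rfl, rfl, b2_lt h2⟩
    · intro A B hA hB h1 h2 d hd
      rw [act_mul, h1 _ (brk_act hd hB), h2 d hd, Matrix.det_mul, mul_pow, mul_assoc]
  exact key d hd

/-- **multiplication of the functions** -/
theorem wn_mul (hd : Brk d) (v : K) (φ : Ix i → K) :
    Wn d i (fun l => v * φ l) = v ^ Fintype.card (Ix i) * Wn d i φ := by
  have h1 := det_tri (fun p : Ix i => op d p.1.1 p.1.2)
    (fun p : Ix i => op d p.1.1 p.1.2 * LinearMap.mulLeft k v) (fun _ => v) b1 b1_inj (fun p => by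
      refine to_ix (fun a c h2 => ?_) (chg_mul hd v p.1.1 p.1.2)
      obtain ⟨q, rfl, rfl⟩ := ix_of h2 p.2
      exact ⟨q, rfl, rfl, b1_lt (Or.inl h2)⟩) (fun l => evl (φ l))
  rw [Finset.prod_const, Finset.card_univ] at h1
  exact h1

theorem op_const {c : K} (h0 : d 0 c = 0) (h1 : d 1 c = 0) (a b : ℕ) (f : K) : op d a b (c * f) = c * op d a b f := by
  have key : ∀ (j : Fin 2) (n : ℕ) (f : K), d j c = 0 →
      ((d j : K →ₗ[k] K) ^ n) (c * f) = c * ((d j : K →ₗ[k] K) ^ n) f := by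
    intro j n
    induction n with
    | zero => intro f _; rfl
    | succ n ih =>
      intro f hj
      rw [pow_succ', Module.End.mul_apply, Module.End.mul_apply, ih f hj]
      show d j (c * _) = c * d j _
      rw [Derivation.leibniz, smul_eq_mul, smul_eq_mul, hj, mul_zero, add_zero]
  show ((d 0 : K →ₗ[k] K) ^ a) (((d 1 : K →ₗ[k] K) ^ b) (c * f)) = _
  rw [key 1 b f h1, key 0 a _ h0]
  rfl

/-- **the constants** -/
theorem wn_cols {c : Ix i → K} (h0 : ∀ l, d 0 (c l) = 0) (h1 : ∀ l, d 1 (c l) = 0) (φ : Ix i → K) :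
    Wn d i (fun l => c l * φ l) = (∏ l, c l) * Wn d i φ := by
  unfold Wn
  rw [← Matrix.det_mul_row]
  congr 1
  ext p l
  rw [Matrix.of_apply, Matrix.of_apply, Matrix.of_apply, op_const (h0 l) (h1 l)]

end Pool.Agent.H41.WR
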