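import Pool.Agent.H41.WR.Wd
import Pool.Agent.H89.RS.Der

/-!
# [H41 WR Crm] THEOREM WR (MP_e49dc9_ag): the alternating derivation is a determinant; the rule of Cramer

`j_det`: transcendence degree `3`: `J x y z = j₀ det (p i x, p i y, p i z)` with three derivations `p i`.
`cramer`: `J u f g * J a b c = J a f g * J u b c + J b f g * J a u c + J c f g * J a b u`.
-/

set_option autoImplicit false

namespace Pool.Agent.H41.WR

open Pool.Agent.H54.RV Pool.Agent.H83.TU Pool.Agent.H83.TK Pool.Agent.H89.RS Pool.Agent.H43.WR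

variable {k K : Type} [Field k] [Field K] [Algebra k K] {X : Mod k K} {J : K → K → K → K} {κ : Cart X}

/-- a derivation in terms of a transcendence basis -/
theorem der_basis [CharZero k] (htr : Algebra.trdeg k K = 3) :
    ∃ (b : Fin 3 → K) (p : Fin 3 → Derivation k K K), ∀ (δ : Derivation k K K) (f : K),
      δ f = δ (b 0) * p 0 f + δ (b 1) * p 1 f + δ (b 2) * p 2 f := by
  obtain ⟨b, hb⟩ : ∃ b : Fin 3 → K, IsTranscendenceBasis k b := by
    obtain ⟨b, hb⟩ := Pool.Agent.H20.TU.exists_indep 3 (by exact_mod_cast htr.ge)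
    refine ⟨b, hb.isTranscendenceBasis_of_trdeg_le_of_finite ?_⟩
    rw [Cardinal.mk_fin, htr]
    norm_num
  choose p hp using fun i : Fin 3 => Pool.Agent.H24.TU.exists_derivation hb (fun j => if j = i then (1 : K) else 0)
  refine ⟨b, p, fun δ f => ?_⟩
  have h1 : δ - (δ (b 0) • p 0 + δ (b 1) • p 1 + δ (b 2) • p 2) = 0 := by
    refine Pool.Agent.H24.TU.derivation_eq_zero hb _ fun j => ?_
    have e : (δ - (δ (b 0) • p 0 + δ (b 1) • p 1 + δ (b 2) • p 2)) (b j) =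
        δ (b j) - (δ (b 0) * p 0 (b j) + δ (b 1) * p 1 (b j) + δ (b 2) * p 2 (b j)) := rfl
    rw [e, hp, hp, hp]
    fin_cases j <;> simp
  have h2 := congrArg (fun D : Derivation k K K => D f) h1
  change δ f - (δ (b 0) * p 0 f + δ (b 1) * p 1 f + δ (b 2) * p 2 f) = 0 at h2
  exact sub_eq_zero.1 h2

theorem j_det [CharZero k] (htr : Algebra.trdeg k K = 3) (hJ : Jac X J κ) :
    ∃ (p : Fin 3 → Derivation k K K) (j₀ : K), ∀ x y z, J x y z = j₀ *
      (p 0 x * (p 1 y * p 2 z - p 2 y * p 1 z) - p 1 x * (p 0 y * p 2 z - p 2 y * p 0 z) +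
        p 2 x * (p 0 y * p 1 z - p 1 y * p 0 z)) := by
  obtain ⟨b, p, h⟩ := der_basis (k := k) (K := K) htr
  have e1 : ∀ x y z, J x y z = J (b 0) y z * p 0 x + J (b 1) y z * p 1 x + J (b 2) y z * p 2 x := fun x y z =>
    h (jder hJ y z) x
  have e2 : ∀ x y z, J x y z = J x (b 0) z * p 0 y + J x (b 1) z * p 1 y + J x (b 2) z * p 2 y := fun x y z => by
    rw [hJ.s12 x y z, e1 y x z, hJ.s12 x (b 0), hJ.s12 x (b 1), hJ.s12 x (b 2)]
    ring
  have e3 : ∀ x y z, J x y z = J x y (b 0) * p 0 z + J x y (b 1) * p 1 z + J x y (b 2) * p 2 z := fun x y z => by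
    rw [hJ.s23 x y z, e2 x z y, hJ.s23 x y (b 0), hJ.s23 x y (b 1), hJ.s23 x y (b 2)]
    ring
  have z1 : ∀ a c, J a a c = 0 := j_self hJ
  have z2 : ∀ a c, J a c c = 0 := fun a c => by
    rw [hJ.s12 a c c, hJ.s23 c a c, z1, neg_zero, neg_zero]
  have z3 : ∀ a c, J a c a = 0 := fun a c => by rw [hJ.s23, z1, neg_zero]
  refine ⟨p, J (b 0) (b 1) (b 2), fun x y z => ?_⟩
  have m1 : J (b 0) (b 2) (b 1) = - J (b 0) (b 1) (b 2) := hJ.s23 _ _ _
  have m2 : J (b 1) (b 0) (b 2) = - J (b 0) (b 1) (b 2) := hJ.s12 _ _ _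
  have m3 : J (b 1) (b 2) (b 0) = J (b 0) (b 1) (b 2) := by rw [hJ.s23, m2, neg_neg]
  have m4 : J (b 2) (b 0) (b 1) = J (b 0) (b 1) (b 2) := by rw [hJ.s12, m1, neg_neg]
  have m5 : J (b 2) (b 1) (b 0) = - J (b 0) (b 1) (b 2) := by rw [hJ.s23, m4]
  rw [e1 x y z, e2 (b 0) y z, e2 (b 1) y z, e2 (b 2) y z, e3 (b 0) (b 1) z, e3 (b 0) (b 2) z, e3 (b 1) (b 0) z,
    e3 (b 1) (b 2) z, e3 (b 2) (b 0) z, e3 (b 2) (b 1) z]
  simp only [z1, z2, z3, m1, m2, m3, m4, m5]
  ring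

/-- **the rule of Cramer** -/
theorem cramer [CharZero k] (htr : Algebra.trdeg k K = 3) (hJ : Jac X J κ) (u f g a b c : K) :
    J u f g * J a b c = J a f g * J u b c + J b f g * J a u c + J c f g * J a b u := by
  obtain ⟨p, j₀, h⟩ := j_det htr hJ
  rw [h u f g, h a b c, h a f g, h u b c, h b f g, h a u c, h c f g, h a b u]
  ring

end Pool.Agent.H41.WR
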