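import Pool.Agent.H16.WR.Num

/-!
# [H41 WR Dt] THEOREM WR (MP_e49dc9_ag): the determinant of the derivatives of order `≤ i` by a pair of derivations

`d 0`, `d 1` derivations of `K` over `k` whose commutator is a combination of `d 0`, `d 1` (`Brk`).
* `op d a b = d 0 ^ a * d 1 ^ b`, `Ix i`: the pairs `(a,b)`, `a + b ≤ i`.  `Wn d i φ`: the determinant of the `op d a b (φ l)`.
* `act A d`: the pair `d' j = ∑ A j m d m`.  `wi i`: the sum of the first coordinates.
-/

set_option autoImplicit false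

namespace Pool.Agent.H41.WR

open Pool.Agent.H16.WR (Ix)

variable {k K : Type} [Field k] [Field K] [Algebra k K]

/-- the index `(a,b)` -/
def ix {i a b : ℕ} (h : a + b ≤ i) : Ix i := ⟨(⟨a, by omega⟩, ⟨b, by omega⟩), h⟩

/-- the derivative `d 0 ^ a d 1 ^ b` -/
def op (d : Fin 2 → Derivation k K K) (a b : ℕ) : Module.End k K := (d 0 : K →ₗ[k] K) ^ a * (d 1 : K →ₗ[k] K) ^ b

/-- the commutator is a combination of `d 0`, `d 1` -/
def Brk (d : Fin 2 → Derivation k K K) : Prop :=
  ∃ α β : K, ∀ f, d 0 (d 1 f) - d 1 (d 0 f) = α * d 0 f + β * d 1 f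

/-- the determinant of the derivatives of order `≤ i` -/
noncomputable def Wn (d : Fin 2 → Derivation k K K) (i : ℕ) (φ : Ix i → K) : K :=
  (Matrix.of fun p l : Ix i => op d p.1.1 p.1.2 (φ l)).det

/-- the pair `∑ A j m d m` -/
def act (A : Matrix (Fin 2) (Fin 2) K) (d : Fin 2 → Derivation k K K) : Fin 2 → Derivation k K K :=
  fun j => A j 0 • d 0 + A j 1 • d 1

/-- the weight -/
def wi (i : ℕ) : ℕ := ∑ p : Ix i, (p.1.1 : ℕ)

/-! ## triangular changes -/

theorem det_tri {m : Type} [Fintype m] [DecidableEq m] {V : Type} [AddCommGroup V] [Module K V] (D D' : m → V)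
    (c : m → K) (b : m → ℕ) (hb : Function.Injective b)
    (h : ∀ p, D' p - c p • D p ∈ Submodule.span K (D '' {q | b q < b p})) (ev : m → V →ₗ[K] K) :
    (Matrix.of fun p l => ev l (D' p)).det = (∏ p, c p) * (Matrix.of fun p l => ev l (D p)).det := by
  classical
  have h1 : ∀ p, ∃ C : m → K, (∀ q, ¬ b q < b p → C q = 0) ∧ D' p - c p • D p = ∑ q, C q • D q := by
    intro p
    obtain ⟨a, ha⟩ := (Fintype.mem_span_image_iff_exists_fun (R := K) (v := D) (s := {q | b q < b p})).1 (h p)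
    refine ⟨fun q => if hq : b q < b p then a ⟨q, hq⟩ else 0, fun q hq => dif_neg hq, ?_⟩
    rw [← ha]
    rw [← Finset.sum_subset (Finset.subset_univ (Finset.univ.filter fun q => b q < b p))]
    · rw [← Finset.sum_subtype_eq_sum_filter, Finset.subtype_univ]
      refine Finset.sum_congr rfl fun q _ => ?_
      dsimp only
      rw [dif_pos (show b q.1 < b p from q.2)]
    · intro q _ hq
      rw [Finset.mem_filter, not_and] at hq
      dsimp only
      rw [dif_neg (hq (Finset.mem_univ q)), zero_smul]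
  choose C hC1 hC2 using h1
  obtain ⟨M, hM⟩ : ∃ M : Matrix m m K, M = Matrix.diagonal c + Matrix.of C := ⟨_, rfl⟩
  have h2 : (Matrix.of fun p l => ev l (D' p)) = M * Matrix.of fun p l => ev l (D p) := by
    ext p l
    have h3 : D' p = c p • D p + ∑ q, C p q • D q := by rw [← hC2 p]; abel
    rw [hM, Matrix.add_mul, Matrix.add_apply, Matrix.diagonal_mul, Matrix.mul_apply, Matrix.of_apply, Matrix.of_apply, h3,
      map_add, map_smul, map_sum, smul_eq_mul]
    congr 1
    refine Finset.sum_congr rfl fun q _ => ?_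
    rw [map_smul, smul_eq_mul, Matrix.of_apply, Matrix.of_apply]
  have h3 : M.det = ∏ p, c p := by
    let _ : LinearOrder m := LinearOrder.lift' b hb
    have h4 : M.det = ∏ p, M p p := by
      refine Matrix.det_of_isLowerTriangular M ?_
      intro p q hpq
      have h5 : b p < b q := by
        change OrderDual.toDual q < OrderDual.toDual p at hpq
        exact hpq
      rw [hM, Matrix.add_apply, Matrix.diagonal_apply_ne _ (fun h6 => by rw [h6] at h5; exact lt_irrefl _ h5), zero_add,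
        Matrix.of_apply]
      exact hC1 p q (by omega)
    rw [h4]
    refine Finset.prod_congr rfl fun p _ => ?_
    rw [hM, Matrix.add_apply, Matrix.diagonal_apply_eq, Matrix.of_apply, hC1 p p (lt_irrefl _), add_zero]
  rw [h2, Matrix.det_mul, h3]

/-! ## the filtration by the order -/

/-- the span of the `op d a b` with `S a b` -/
def Sp (d : Fin 2 → Derivation k K K) (S : ℕ → ℕ → Prop) : Submodule K (Module.End k K) :=
  Submodule.span K {D | ∃ a b, S a b ∧ D = op d a b}

variable {d : Fin 2 → Derivation k K K} {S S' : ℕ → ℕ → Prop}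

theorem op_mem {a b : ℕ} (h : S a b) : op d a b ∈ Sp d S := Submodule.subset_span ⟨a, b, h, rfl⟩

theorem sp_mono (h : ∀ a b, S a b → S' a b) : Sp d S ≤ Sp d S' := by
  refine Submodule.span_mono ?_
  rintro _ ⟨a, b, h1, rfl⟩
  exact ⟨a, b, h a b h1, rfl⟩

theorem der_smul (δ : Derivation k K K) (c : K) (D : Module.End k K) :
    (δ : K →ₗ[k] K) * (c • D) = δ c • D + c • ((δ : K →ₗ[k] K) * D) := by
  refine LinearMap.ext fun f => ?_
  show δ (c * D f) = δ c * D f + c * δ (D f)
  rw [Derivation.leibniz, smul_eq_mul, smul_eq_mul]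
  ring

theorem op_succ (d : Fin 2 → Derivation k K K) (a b : ℕ) : (d 0 : K →ₗ[k] K) * op d a b = op d (a + 1) b := by
  unfold op
  rw [pow_succ' (d 0 : K →ₗ[k] K) a, mul_assoc]

theorem op_zero (d : Fin 2 → Derivation k K K) (b : ℕ) : (d 1 : K →ₗ[k] K) * op d 0 b = op d 0 (b + 1) := by
  unfold op
  rw [pow_zero, one_mul, one_mul, pow_succ' (d 1 : K →ₗ[k] K) b]

/-- a derivation maps `Sp d S` to `Sp d S'` -/
theorem mul_sp (δ : Derivation k K K) (h0 : ∀ a b, S a b → S' a b)
    (h1 : ∀ a b, S a b → (δ : K →ₗ[k] K) * op d a b ∈ Sp d S') {D : Module.End k K} (hD : D ∈ Sp d S) :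
    (δ : K →ₗ[k] K) * D ∈ Sp d S' := by
  have key : D ∈ Sp d S' ∧ (δ : K →ₗ[k] K) * D ∈ Sp d S' := by
    refine Submodule.span_induction ?_ ?_ ?_ ?_ hD
    · rintro _ ⟨a, b, h2, rfl⟩
      exact ⟨op_mem (h0 a b h2), h1 a b h2⟩
    · exact ⟨Submodule.zero_mem _, by rw [mul_zero]; exact Submodule.zero_mem _⟩
    · intro x y _ _ hx hy
      exact ⟨Submodule.add_mem _ hx.1 hy.1, by rw [mul_add]; exact Submodule.add_mem _ hx.2 hy.2⟩
    · intro c x _ hx
      exact ⟨Submodule.smul_mem _ _ hx.1, by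
        rw [der_smul]
        exact Submodule.add_mem _ (Submodule.smul_mem _ _ hx.1) (Submodule.smul_mem _ _ hx.2)⟩
  exact key.2

theorem comm (hd : Brk d) (a b : ℕ) :
    (d 1 : K →ₗ[k] K) * op d a b - op d a (b + 1) ∈ Sp d fun a' b' => a' + b' ≤ a + b := by
  obtain ⟨α, β, hαβ⟩ := hd
  induction a with
  | zero =>
    rw [op_zero, sub_self]
    exact Submodule.zero_mem _
  | succ a ih =>
    have e1 : (d 1 : K →ₗ[k] K) * (d 0 : K →ₗ[k] K) =
        (d 0 : K →ₗ[k] K) * (d 1 : K →ₗ[k] K) - α • (d 0 : K →ₗ[k] K) - β • (d 1 : K →ₗ[k] K) := by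
      refine LinearMap.ext fun f => ?_
      show d 1 (d 0 f) = d 0 (d 1 f) - α * d 0 f - β * d 1 f
      have := hαβ f
      linear_combination -this
    obtain ⟨R, hR⟩ : ∃ R, R = (d 1 : K →ₗ[k] K) * op d a b - op d a (b + 1) := ⟨_, rfl⟩
    rw [← hR] at ih
    have e2 : (d 1 : K →ₗ[k] K) * op d a b = op d a (b + 1) + R := by rw [hR]; abel
    have e3 : (d 1 : K →ₗ[k] K) * op d (a + 1) b - op d (a + 1) (b + 1) =
        (d 0 : K →ₗ[k] K) * R - α • op d (a + 1) b - β • (op d a (b + 1) + R) := by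
      rw [← op_succ, ← mul_assoc, e1, sub_mul, sub_mul, mul_assoc, e2, mul_add, op_succ, smul_mul_assoc, op_succ,
        smul_mul_assoc, e2]
      abel
    rw [e3]
    have h1 : Sp d (fun a' b' => a' + b' ≤ a + b) ≤ Sp d (fun a' b' => a' + b' ≤ a + 1 + b) :=
      sp_mono fun a' b' h => by omega
    refine Submodule.sub_mem _ (Submodule.sub_mem _ ?_ (Submodule.smul_mem _ _ (op_mem ?_)))
      (Submodule.smul_mem _ _ (Submodule.add_mem _ (op_mem ?_) (h1 ih)))
    · refine mul_sp (d 0) (fun a' b' h => ?_) (fun a' b' h => ?_) ih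
      · omega
      · rw [op_succ]
        exact op_mem (by omega)
    · omega
    · omega

/-- the product with `x d 0 + y d 1` -/
theorem lin_op (hd : Brk d) (x y : K) (a b : ℕ) :
    ((x • d 0 + y • d 1 : Derivation k K K) : K →ₗ[k] K) * op d a b - x • op d (a + 1) b - y • op d a (b + 1) ∈
      Sp d fun a' b' => a' + b' ≤ a + b := by
  have e1 : ((x • d 0 + y • d 1 : Derivation k K K) : K →ₗ[k] K) =
      x • (d 0 : K →ₗ[k] K) + y • (d 1 : K →ₗ[k] K) := rfl
  have e2 : ((x • d 0 + y • d 1 : Derivation k K K) : K →ₗ[k] K) * op d a b - x • op d (a + 1) b -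
      y • op d a (b + 1) = y • ((d 1 : K →ₗ[k] K) * op d a b - op d a (b + 1)) := by
    rw [e1, add_mul, smul_mul_assoc, smul_mul_assoc, op_succ, smul_sub]
    abel
  rw [e2]
  exact Submodule.smul_mem _ _ (comm hd a b)

/-- the general step -/
theorem step (hd : Brk d) {X : Module.End k K} {c : K} {a b : ℕ} (hX : X - c • op d a b ∈ Sp d S) (x y : K)
    (h1 : ∀ p q, S p q → S' (p + 1) q) (h2 : y ≠ 0 → ∀ p q, S p q → S' p (q + 1))
    (h3 : ∀ p q, S p q → ∀ p' q', p' + q' ≤ p + q → S' p' q') (h4 : ∀ p' q', p' + q' ≤ a + b → S' p' q') :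
    ((x • d 0 + y • d 1 : Derivation k K K) : K →ₗ[k] K) * X - (c * x) • op d (a + 1) b - (c * y) • op d a (b + 1) ∈
      Sp d S' := by
  obtain ⟨R, hR⟩ : ∃ R, R = X - c • op d a b := ⟨_, rfl⟩
  rw [← hR] at hX
  have e1 : X = c • op d a b + R := by rw [hR]; abel
  obtain ⟨δ, hδ⟩ : ∃ δ : Derivation k K K, δ = x • d 0 + y • d 1 := ⟨_, rfl⟩
  have key : ∀ a b, (δ : K →ₗ[k] K) * op d a b - x • op d (a + 1) b - y • op d a (b + 1) ∈
      Sp d fun a' b' => a' + b' ≤ a + b := fun a b => by rw [hδ]; exact lin_op hd x y a b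
  rw [← hδ]
  have e2 : (δ : K →ₗ[k] K) * X - (c * x) • op d (a + 1) b - (c * y) • op d a (b + 1) =
      δ c • op d a b + c • ((δ : K →ₗ[k] K) * op d a b - x • op d (a + 1) b - y • op d a (b + 1)) +
        (δ : K →ₗ[k] K) * R := by
    rw [e1, mul_add, der_smul, smul_sub, smul_sub, smul_smul, smul_smul]
    abel
  rw [e2]
  refine Submodule.add_mem _ (Submodule.add_mem _ (Submodule.smul_mem _ _ (op_mem (h4 a b le_rfl)))
    (Submodule.smul_mem _ _ (sp_mono (fun p' q' h => h4 p' q' h) (key a b)))) ?_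
  refine mul_sp δ (fun p q h => h3 p q h p q le_rfl) (fun p q h => ?_) hX
  have h5 := key p q
  obtain ⟨R', hR'⟩ : ∃ R', R' = (δ : K →ₗ[k] K) * op d p q - x • op d (p + 1) q - y • op d p (q + 1) := ⟨_, rfl⟩
  rw [← hR'] at h5
  have e3 : (δ : K →ₗ[k] K) * op d p q = R' + x • op d (p + 1) q + y • op d p (q + 1) := by rw [hR']; abel
  rw [e3]
  refine Submodule.add_mem _ (Submodule.add_mem _ (sp_mono (fun p' q' h' => h3 p q h p' q' h') h5)
    (Submodule.smul_mem _ _ (op_mem (h1 p q h)))) ?_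
  by_cases hy : y = 0
  · rw [hy, zero_smul]
    exact Submodule.zero_mem _
  · exact Submodule.smul_mem _ _ (op_mem (h2 hy p q h))

end Pool.Agent.H41.WR
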